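import Pool.Agent.R356.Joint

/-!
# Small irreducible factors of polynomials in two variables
-/

set_option autoImplicit false

namespace Pool.Agent.D0H21.PE

open Polynomial Finset
open Pool.Agent.TH456.TM
open Pool.Agent.R356

/-- the degree in the inner variable -/
noncomputable def ideg (P : ℤ[X][X]) : ℕ := (Bivariate.swap P).natDegree

lemma swap_coeff (P : ℤ[X][X]) (i j : ℕ) :
    ((Bivariate.swap P).coeff i).coeff j = (P.coeff j).coeff i := by
  induction P using Polynomial.induction_on' with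
  | add p q hp hq => rw [map_add, coeff_add, coeff_add, coeff_add, coeff_add, hp, hq]
  | monomial n a =>
    induction a using Polynomial.induction_on' with
    | add p q hp hq =>
      rw [map_add (monomial n), map_add, coeff_add, coeff_add, coeff_add, coeff_add, hp, hq]
    | monomial m r =>
      rw [Bivariate.swap_monomial_monomial]
      simp only [coeff_monomial]
      split_ifs with h1 h2 h3
      · rw [coeff_monomial, coeff_monomial, if_pos h2, if_pos h1]
      · rw [coeff_monomial, if_neg h2, coeff_zero]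
      · rw [coeff_monomial, if_neg h1, coeff_zero]
      · rw [coeff_zero, coeff_zero]

lemma ideg_mul (A B : ℤ[X][X]) (hA : A ≠ 0) (hB : B ≠ 0) : ideg (A * B) = ideg A + ideg B := by
  unfold ideg
  rw [map_mul, natDegree_mul]
  · rwa [Ne, EmbeddingLike.map_eq_zero_iff]
  · rwa [Ne, EmbeddingLike.map_eq_zero_iff]

lemma coeff_natDegree_le (P : ℤ[X][X]) (j : ℕ) : (P.coeff j).natDegree ≤ ideg P := by
  rw [natDegree_le_iff_coeff_eq_zero]
  intro i hi
  rw [← swap_coeff]
  rw [coeff_eq_zero_of_natDegree_lt hi, coeff_zero]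

lemma ideg_le (P : ℤ[X][X]) (E : ℕ) (h : ∀ j, (P.coeff j).natDegree ≤ E) : ideg P ≤ E := by
  unfold ideg
  rw [natDegree_le_iff_coeff_eq_zero]
  intro i hi
  ext j
  rw [swap_coeff, coeff_zero]
  exact coeff_eq_zero_of_natDegree_lt ((h j).trans_lt hi)

/-- values of a polynomial whose nonconstant irreducible factors have large values -/
lemma value_of_factors2 (y t : ℂ) (δ : ℝ) (hδ : 0 < δ) (hδ1 : δ ≤ 1) (P : ℤ[X][X]) (hP : P ≠ 0)
    (h : ∀ q : ℤ[X][X], Irreducible q → q ∣ P → 0 < q.natDegree + ideg q → δ ≤ ‖vl y t q‖) :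
    δ ^ (P.natDegree + ideg P) ≤ ‖vl y t P‖ := by
  induction P using UniqueFactorizationMonoid.induction_on_prime with
  | h₁ => exact absurd rfl hP
  | h₂ a ha =>
    obtain ⟨r, hr, rfl⟩ := Polynomial.isUnit_iff.1 ha
    obtain ⟨s, hs, rfl⟩ := Polynomial.isUnit_iff.1 hr
    have h1 : ideg (C (C s) : ℤ[X][X]) = 0 := by
      have := ideg_le (C (C s)) 0 (fun j => by
        rw [coeff_C]
        split_ifs <;> simp)
      omega
    rw [natDegree_C, h1, add_zero, pow_zero]
    have h2 : vl y t (C (C s)) = s := by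
      unfold vl σx
      simp
    rw [h2, Complex.norm_intCast]
    rcases Int.isUnit_iff.1 hs with h | h <;> rw [h] <;> simp
  | h₃ a p ha hp ih =>
    have h1 := ih ha fun q hq hqa => h q hq (hqa.mul_left p)
    have hv : vl y t (p * a) = vl y t p * vl y t a := by
      rw [← evR_apply, ← evR_apply, ← evR_apply, map_mul]
    have hdd : (p * a).natDegree + ideg (p * a) = (p.natDegree + ideg p) + (a.natDegree + ideg a) := by
      rw [natDegree_mul hp.ne_zero ha, ideg_mul p a hp.ne_zero ha]
      ring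
    rw [hv, norm_mul, hdd, pow_add]
    refine mul_le_mul ?_ h1 (by positivity) (norm_nonneg _)
    by_cases hd : p.natDegree + ideg p = 0
    · rw [hd, pow_zero]
      have h2 : p = C (p.coeff 0) := eq_C_of_natDegree_eq_zero (by omega)
      have h3 : (p.coeff 0).natDegree ≤ 0 := (coeff_natDegree_le p 0).trans (by omega)
      have h4 : p.coeff 0 = C ((p.coeff 0).coeff 0) := eq_C_of_natDegree_eq_zero (by omega)
      have h5 : (p.coeff 0).coeff 0 ≠ 0 := fun h => hp.ne_zero (by rw [h2, h4, h, C_0, C_0])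
      have h6 : vl y t p = ((p.coeff 0).coeff 0 : ℤ) := by
        conv_lhs => rw [h2, h4]
        unfold vl σx
        simp
      rw [h6, Complex.norm_intCast]
      exact_mod_cast Int.one_le_abs h5
    · refine le_trans ?_ (h p hp.irreducible (dvd_mul_right p a) (by omega))
      exact pow_le_of_le_one hδ.le hδ1 hd

/-- Kronecker substitution -/
lemma kr_coeff (N : ℕ) (hN : 0 < N) (P : ℤ[X][X]) (hP : ideg P < N) (k : ℕ) :
    (P.eval (X ^ N)).coeff k = (P.coeff (k / N)).coeff (k % N) := by
  rw [eval_eq_sum_range' (n := max (P.natDegree + 1) (k / N + 1)) (by omega), finsetSum_coeff]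
  have h1 : ∀ j, (P.coeff j * (X ^ N) ^ j).coeff k =
      if j = k / N then (P.coeff (k / N)).coeff (k % N) else 0 := by
    intro j
    rw [← pow_mul, coeff_mul_X_pow']
    have hk := Nat.div_add_mod k N
    have hk2 := Nat.mod_lt k hN
    rcases lt_trichotomy j (k / N) with h | h | h
    · rw [if_neg h.ne]
      have h2 : N * j + N ≤ N * (k / N) := by
        calc N * j + N = N * (j + 1) := by ring
          _ ≤ _ := Nat.mul_le_mul_left _ h
      rw [if_pos (by omega)]
      apply coeff_eq_zero_of_natDegree_lt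
      have := coeff_natDegree_le P j
      omega
    · subst h
      rw [if_pos rfl, if_pos (by omega)]
      congr 1
      omega
    · rw [if_neg h.ne']
      have h2 : N * (k / N) + N ≤ N * j := by
        calc N * (k / N) + N = N * (k / N + 1) := by ring
          _ ≤ _ := Nat.mul_le_mul_left _ h
      rw [if_neg (by omega)]
  rw [Finset.sum_congr rfl fun j _ => h1 j, Finset.sum_ite_eq' (range _) (k / N)]
  rw [if_pos (Finset.mem_range.2 (by omega))]

lemma hgt_le (P : ℤ[X][X]) (B : ℝ) (hB : 0 ≤ B) (h : ∀ j i, |(((P.coeff j).coeff i : ℤ) : ℝ)| ≤ B) :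
    (hgt P : ℝ) ≤ B := by
  have h1 : hgt P ≤ ⌊B⌋₊ := by
    unfold hgt
    refine Finset.sup_le fun j _ => Finset.sup_le fun i _ => ?_
    apply Nat.le_floor
    rw [Nat.cast_natAbs, Int.cast_abs]
    exact h j i
  exact (Nat.cast_le.2 h1).trans (Nat.floor_le hB)

lemma abs_coeff_le (P : ℤ[X][X]) (j i : ℕ) : |(((P.coeff j).coeff i : ℤ) : ℝ)| ≤ hgt P := by
  rw [← Int.cast_abs, Int.abs_eq_natAbs]
  exact_mod_cast le_hgt P j i

/-- the constant in the inequality for the height of a factor -/
noncomputable def KF (E : ℕ) : ℝ := 2 ^ ((E + 1) * (E + 1)) * (((E + 1) * (E + 1) : ℕ) + 1)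

lemma KF_pos (E : ℕ) : 1 ≤ KF E := by
  unfold KF
  have h1 : (1 : ℝ) ≤ 2 ^ ((E + 1) * (E + 1)) := one_le_pow₀ (by norm_num)
  have h2 : (0 : ℝ) ≤ (((E + 1) * (E + 1) : ℕ) : ℝ) := by positivity
  nlinarith

/-- the height of a factor -/
lemma hgt_factor (E : ℕ) (A B : ℤ[X][X]) (hAB : A * B ≠ 0) (hE1 : (A * B).natDegree ≤ E)
    (hE2 : ideg (A * B) ≤ E) (H : ℝ) (hH : (hgt (A * B) : ℝ) ≤ H) : (hgt A : ℝ) ≤ KF E * H := by
  have hA : A ≠ 0 := left_ne_zero_of_mul hAB
  have hB : B ≠ 0 := right_ne_zero_of_mul hAB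
  have hi := ideg_mul A B hA hB
  have hH0 : 0 ≤ H := (Nat.cast_nonneg _).trans hH
  have hker : ∀ P : ℤ[X][X], P ≠ 0 → ideg P < E + 1 → P.eval (X ^ (E + 1)) ≠ 0 := by
    intro P hP hPE h0
    apply hP
    ext j i
    rw [coeff_zero, coeff_zero]
    by_cases hiE : i < E + 1
    · have h1 := kr_coeff (E + 1) (by omega) P hPE ((E + 1) * j + i)
      rw [h0, coeff_zero] at h1
      rw [Nat.mul_add_div (by omega), Nat.div_eq_of_lt hiE, add_zero, Nat.mul_add_mod,
        Nat.mod_eq_of_lt hiE] at h1
      exact h1.symm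
    · apply coeff_eq_zero_of_natDegree_lt
      have := coeff_natDegree_le P j
      omega
  have hA' := hker A hA (by omega)
  have hB' := hker B hB (by omega)
  have hmul : (A * B).eval (X ^ (E + 1)) = A.eval (X ^ (E + 1)) * B.eval (X ^ (E + 1)) := eval_mul
  have hdeg : (A.eval (X ^ (E + 1)) * B.eval (X ^ (E + 1))).natDegree ≤ (E + 1) * (E + 1) := by
    rw [← hmul, natDegree_le_iff_coeff_eq_zero]
    intro k hk
    rw [kr_coeff (E + 1) (by omega) _ (by omega)]
    have h1 : E + 1 ≤ k / (E + 1) := by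
      rw [Nat.le_div_iff_mul_le (by omega)]
      omega
    rw [coeff_eq_zero_of_natDegree_lt (by omega : (A * B).natDegree < k / (E + 1)), coeff_zero]
  refine hgt_le A _ (by have := KF_pos E; positivity) fun j i => ?_
  by_cases hiE : i < E + 1
  · have h1 := kr_coeff (E + 1) (by omega) A (by omega) ((E + 1) * j + i)
    rw [Nat.mul_add_div (by omega), Nat.div_eq_of_lt hiE, add_zero, Nat.mul_add_mod,
      Nat.mod_eq_of_lt hiE] at h1
    rw [← h1]
    refine height_factor ((E + 1) * (E + 1)) _ _ hA' hB' hdeg H (fun k => ?_) _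
    rw [← hmul, kr_coeff (E + 1) (by omega) _ (by omega)]
    exact (abs_coeff_le _ _ _).trans hH
  · rw [coeff_eq_zero_of_natDegree_lt]
    · rw [Int.cast_zero, abs_zero]
      have := KF_pos E
      positivity
    · have := coeff_natDegree_le A j
      omega

/-- a small nonconstant irreducible factor -/
theorem exists_small_factor (y t : ℂ) (E : ℕ) (G : ℤ[X][X]) (hG : G ≠ 0) (hE1 : G.natDegree ≤ E)
    (hE2 : ideg G ≤ E) (H : ℝ) (hH : (hgt G : ℝ) ≤ H) (δ : ℝ) (hδ : 0 < δ) (hδ1 : δ ≤ 1)
    (hsmall : ‖vl y t G‖ < δ ^ (2 * E)) :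
    ∃ F ∈ IR E, F ∣ G ∧ 0 < F.natDegree + ideg F ∧ ‖vl y t F‖ < δ ∧ (hgt F : ℝ) ≤ KF E * H := by
  by_contra hcon
  push Not at hcon
  have hmain : ∀ q : ℤ[X][X], Irreducible q → q ∣ G → 0 < q.natDegree + ideg q → δ ≤ ‖vl y t q‖ := by
    intro q hq hqG hqd
    have hq0 := hq.ne_zero
    obtain ⟨r, hr⟩ := hqG
    have hr0 : r ≠ 0 := fun h => hG (by rw [hr, h, mul_zero])
    have hd1 : q.natDegree ≤ E := by
      have := natDegree_mul hq0 hr0
      rw [← hr] at this
      omega
    have hd2 : ideg q ≤ E := by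
      have := ideg_mul q r hq0 hr0
      rw [← hr] at this
      omega
    have hh : (hgt q : ℝ) ≤ KF E * H :=
      hgt_factor E q r (by rw [← hr]; exact hG) (by rw [← hr]; exact hE1) (by rw [← hr]; exact hE2) H
        (by rw [← hr]; exact hH)
    have hlc : q.leadingCoeff.leadingCoeff ≠ 0 := by
      rw [Ne, leadingCoeff_eq_zero, leadingCoeff_eq_zero]
      exact hq0
    rcases lt_or_gt_of_ne hlc with h | h
    · -- the polynomial `-q`
      have hneg : vl y t (-q) = - vl y t q := by
        rw [← evR_apply, ← evR_apply, map_neg]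
      have h1 : -q ∈ IR E := by
        refine ⟨(Associated.irreducible_iff (Associated.neg_left (Associated.refl q))).2 hq, ?_, ?_, ?_⟩
        · rw [natDegree_neg]; exact hd1
        · intro j
          rw [coeff_neg, natDegree_neg]
          exact (coeff_natDegree_le q j).trans hd2
        · rw [leadingCoeff_neg, leadingCoeff_neg]
          omega
      have h2 : (hgt (-q) : ℝ) ≤ KF E * H := by
        refine hgt_le _ _ ((Nat.cast_nonneg _).trans hh) fun j i => ?_
        rw [coeff_neg, coeff_neg, Int.cast_neg, abs_neg]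
        exact (abs_coeff_le _ _ _).trans hh
      by_contra h3
      push Not at h3
      have hid : ideg (-q) = ideg q := by
        unfold ideg
        rw [map_neg, natDegree_neg]
      have h4 := hcon (-q) h1 ((neg_dvd).2 ⟨r, hr⟩) (by rw [natDegree_neg, hid]; exact hqd)
        (by rw [hneg, norm_neg]; exact h3)
      linarith
    · have h1 : q ∈ IR E := ⟨hq, hd1, fun j => (coeff_natDegree_le q j).trans hd2, h⟩
      by_contra h3
      push Not at h3
      have h4 := hcon q h1 ⟨r, hr⟩ hqd h3
      linarith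
  have h1 := value_of_factors2 y t δ hδ hδ1 G hG hmain
  have h2 : δ ^ (2 * E) ≤ δ ^ (G.natDegree + ideg G) := pow_le_pow_of_le_one hδ.le hδ1 (by omega)
  linarith

end Pool.Agent.D0H21.PE
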