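import Pool.Agent.W472.AC.EMeas2

/-!
# Linear forms in exponentials of integers and one arbitrary number
-/

set_option autoImplicit false

namespace Pool.Agent.D0H21.PE

open Finset
open Pool.Agent.W472.AC

/-- measure of linear independence of `e ^ u`, `u` in a set of integers, with the optimal exponent -/
lemma meas_all (m : ℕ) (u : Fin (m + 1) → ℤ) (hu : Function.Injective u) (η : ℝ) (hη : 0 < η) :
    ∃ c : ℝ, 0 < c ∧ ∀ a : Fin (m + 1) → ℤ, a ≠ 0 → ∀ H : ℝ, 1 ≤ H → (∀ j, |(a j : ℝ)| ≤ H) →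
      c ≤ H ^ ((m : ℝ) + η) * |∑ j, (a j : ℝ) * Real.exp (u j)| := by
  obtain ⟨i₀, hi₀⟩ := Finite.exists_min u
  obtain ⟨σ, hσ⟩ : ∃ σ : Equiv.Perm (Fin (m + 1)), σ = Equiv.swap 0 i₀ := ⟨_, rfl⟩
  have hσ0 : σ 0 = i₀ := by rw [hσ, Equiv.swap_apply_left]
  obtain ⟨c, hc, h⟩ := e_meas m (fun i => u (σ i) - u i₀) (fun i j hij => by
      have : u (σ i) = u (σ j) := by simpa using hij
      exact σ.injective (hu this)) (by simp [hσ0]) (fun i => by have := hi₀ (σ i); linarith) η hη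
  refine ⟨c * Real.exp (u i₀), by positivity, fun a ha H hH hab => ?_⟩
  have h1 := h (fun i => a (σ i)) (fun h0 => ha (funext fun i => by
    have := congrFun h0 (σ.symm i)
    simpa using this)) H hH (fun j => hab (σ j))
  have h2 : ∑ j, (a j : ℝ) * Real.exp (u j) =
      Real.exp (u i₀) * ∑ j, (a (σ j) : ℝ) * Real.exp ((u (σ j) - u i₀ : ℤ) : ℝ) := by
    rw [← Equiv.sum_comp σ, Finset.mul_sum]
    refine Finset.sum_congr rfl fun j _ => ?_
    push_cast
    rw [Real.exp_sub]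
    field_simp
  rw [h2, abs_mul, abs_of_pos (Real.exp_pos _)]
  have h3 := mul_le_mul_of_nonneg_right h1 (Real.exp_pos (u i₀)).le
  calc _ ≤ _ := h3
    _ = _ := by ring

lemma meas_finset (U : Finset ℤ) (n : ℕ) (hn : U.card = n + 1) (η : ℝ) (hη : 0 < η) :
    ∃ c : ℝ, 0 < c ∧ ∀ b : ℤ → ℤ, (∃ u ∈ U, b u ≠ 0) → ∀ H : ℝ, 1 ≤ H → (∀ u ∈ U, |(b u : ℝ)| ≤ H) →
      c ≤ H ^ ((n : ℝ) + η) * |∑ u ∈ U, (b u : ℝ) * Real.exp u| := by
  obtain ⟨e⟩ : Nonempty (U ≃ Fin (n + 1)) := ⟨Finset.equivFinOfCardEq hn⟩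
  obtain ⟨c, hc, h⟩ := meas_all n (fun i => ((e.symm i : U) : ℤ)) (fun i j hij => by
    exact e.symm.injective (Subtype.ext hij)) η hη
  refine ⟨c, hc, ?_⟩
  rintro b ⟨u, hu, hbu⟩ H hH hb
  have h1 := h (fun i => b ((e.symm i : U) : ℤ)) (fun h0 => hbu (by
    have := congrFun h0 (e ⟨u, hu⟩)
    simpa using this)) H hH (fun j => hb _ (e.symm j).2)
  have h2 : ∑ u ∈ U, (b u : ℝ) * Real.exp u =
      ∑ j, (b ((e.symm j : U) : ℤ) : ℝ) * Real.exp (((e.symm j : U) : ℤ) : ℝ) := by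
    rw [← Finset.sum_coe_sort U (fun u => (b u : ℝ) * Real.exp u)]
    exact (Equiv.sum_comp e.symm (fun v : U => (b (v : ℤ) : ℝ) * Real.exp ((v : ℤ) : ℝ))).symm
  rw [h2]
  exact h1

/-- two near relations with disjoint sets of exponents -/
theorem lin (A B : Finset ℤ) (hA : 0 ∉ A) (hB : 0 ∉ B) (hAB : Disjoint A B) (η : ℝ) (hη : 0 < η) :
    ∃ c : ℝ, 0 < c ∧ ∀ (ξ H : ℝ), 1 ≤ H → ∀ (a k a' k' : ℤ) (b b' : ℤ → ℤ),
      (∃ r ∈ A, b r ≠ 0) → (∃ r ∈ B, b' r ≠ 0) → |(a : ℝ)| ≤ H → |(k : ℝ)| ≤ H → |(a' : ℝ)| ≤ H →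
      |(k' : ℝ)| ≤ H → (∀ r ∈ A, |(b r : ℝ)| ≤ H) → (∀ r ∈ B, |(b' r : ℝ)| ≤ H) →
      |a + ∑ r ∈ A, b r * Real.exp r + k * ξ| < c * H ^ (-(2 * ((A.card : ℝ) + B.card) + 1 + η)) →
      |a' + ∑ r ∈ B, b' r * Real.exp r + k' * ξ| < c * H ^ (-(2 * ((A.card : ℝ) + B.card) + 1 + η)) →
      False := by
  classical
  obtain ⟨n, hn⟩ : ∃ n : ℕ, n = A.card + B.card := ⟨_, rfl⟩
  obtain ⟨U, hU⟩ : ∃ U : Finset ℤ, U = insert 0 (A ∪ B) := ⟨_, rfl⟩
  have h0U : (0 : ℤ) ∉ A ∪ B := by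
    rw [Finset.mem_union]
    tauto
  have hcard : U.card = n + 1 := by
    rw [hU, Finset.card_insert_of_notMem h0U, Finset.card_union_of_disjoint hAB, hn]
  obtain ⟨c₀, hc₀, hm⟩ := meas_finset U n hcard (η / 2) (by positivity)
  have hnR : ((A.card : ℝ) + B.card) = n := by rw [hn]; push_cast; ring
  rw [hnR]
  obtain ⟨w, hw⟩ : ∃ w : ℝ, w = (n : ℝ) + η / 2 := ⟨_, rfl⟩
  rw [← hw] at hm
  have hw0 : 0 < w := by rw [hw]; positivity
  have hexp : -(2 * (n : ℝ) + 1 + η) = -(2 * w + 1) := by rw [hw]; ring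
  rw [hexp]
  refine ⟨c₀ / (2 * 2 ^ w), by positivity, ?_⟩
  intro ξ H hH a k a' k' b b' hb hb' haH hkH haH' hkH' hbH hbH' hL hL'
  have hH0 : 0 < H := by linarith
  obtain ⟨ε, hε⟩ : ∃ ε : ℝ, ε = c₀ / (2 * 2 ^ w) * H ^ (-(2 * w + 1)) := ⟨_, rfl⟩
  rw [← hε] at hL hL'
  have hε0 : 0 < ε := by rw [hε]; positivity
  have h2w : (1 : ℝ) ≤ 2 ^ w := Real.one_le_rpow (by norm_num) hw0.le
  -- a general linear form
  obtain ⟨β, hβ⟩ : ∃ β : ℤ → ℤ, β = fun r => if r = 0 then k' * a - k * a' else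
      (if r ∈ A then k' * b r else 0) - (if r ∈ B then k * b' r else 0) := ⟨_, rfl⟩
  have hsum : ∑ u ∈ U, (β u : ℝ) * Real.exp u =
      (k' : ℝ) * (a + ∑ r ∈ A, b r * Real.exp r + k * ξ) -
      (k : ℝ) * (a' + ∑ r ∈ B, b' r * Real.exp r + k' * ξ) := by
    rw [hU, Finset.sum_insert h0U, Finset.sum_union hAB]
    have e1 : ∑ x ∈ A, (β x : ℝ) * Real.exp x = ∑ x ∈ A, (k' : ℝ) * (b x * Real.exp x) := by
      refine Finset.sum_congr rfl fun x hx => ?_
      have hx0 : x ≠ 0 := fun h => hA (h ▸ hx)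
      have hxB : x ∉ B := Finset.disjoint_left.1 hAB hx
      rw [hβ]
      simp only [if_neg hx0, if_pos hx, if_neg hxB]
      push_cast
      ring
    have e2 : ∑ x ∈ B, (β x : ℝ) * Real.exp x = ∑ x ∈ B, -((k : ℝ) * (b' x * Real.exp x)) := by
      refine Finset.sum_congr rfl fun x hx => ?_
      have hx0 : x ≠ 0 := fun h => hB (h ▸ hx)
      have hxA : x ∉ A := Finset.disjoint_right.1 hAB hx
      rw [hβ]
      simp only [if_neg hx0, if_pos hx, if_neg hxA]
      push_cast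
      ring
    rw [e1, e2, Finset.sum_neg_distrib, ← Finset.mul_sum, ← Finset.mul_sum]
    rw [hβ]
    simp only [if_true, Int.cast_zero, Real.exp_zero]
    push_cast
    ring
  by_cases hk : k = 0 ∧ k' = 0
  · -- both forms do not contain `ξ`
    obtain ⟨hk, hk'⟩ := hk
    have h1 := hm (fun r => if r = 0 then a else if r ∈ A then b r else 0) (by
      obtain ⟨r, hr, hbr⟩ := hb
      have hr0 : r ≠ 0 := fun h => hA (h ▸ hr)
      refine ⟨r, by rw [hU]; simp [hr], ?_⟩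
      simp only [if_neg hr0, if_pos hr]
      exact hbr) H hH (fun u _ => by
        by_cases hu0 : u = 0
        · simp only [if_pos hu0]; exact haH
        · simp only [if_neg hu0]
          by_cases huA : u ∈ A
          · simp only [if_pos huA]; exact hbH u huA
          · simp only [if_neg huA, Int.cast_zero, abs_zero]; linarith)
    have h2 : ∑ u ∈ U, (((fun r => if r = 0 then a else if r ∈ A then b r else 0) u : ℤ) : ℝ) * Real.exp u =
        a + ∑ r ∈ A, b r * Real.exp r + k * ξ := by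
      rw [hU, Finset.sum_insert h0U, Finset.sum_union hAB, hk]
      have e1 : ∑ x ∈ A, (((if x = 0 then a else if x ∈ A then b x else 0 : ℤ)) : ℝ) * Real.exp x =
          ∑ x ∈ A, b x * Real.exp x := by
        refine Finset.sum_congr rfl fun x hx => ?_
        have hx0 : x ≠ 0 := fun h => hA (h ▸ hx)
        rw [if_neg hx0, if_pos hx]
      have e2 : ∑ x ∈ B, (((if x = 0 then a else if x ∈ A then b x else 0 : ℤ)) : ℝ) * Real.exp x = 0 := by
        refine Finset.sum_eq_zero fun x hx => ?_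
        have hx0 : x ≠ 0 := fun h => hB (h ▸ hx)
        have hxA : x ∉ A := Finset.disjoint_right.1 hAB hx
        rw [if_neg hx0, if_neg hxA, Int.cast_zero, zero_mul]
      simp only [e1, e2]
      simp
    rw [h2] at h1
    have h3 : H ^ w * |a + ∑ r ∈ A, b r * Real.exp r + k * ξ| ≤ H ^ w * ε := by gcongr
    have h4 : H ^ w * ε < c₀ := by
      rw [hε]
      have h5 : H ^ w * H ^ (-(2 * w + 1)) ≤ 1 := by
        rw [← Real.rpow_add hH0]
        exact Real.rpow_le_one_of_one_le_of_nonpos hH (by linarith)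
      calc H ^ w * (c₀ / (2 * 2 ^ w) * H ^ (-(2 * w + 1)))
          = c₀ / (2 * 2 ^ w) * (H ^ w * H ^ (-(2 * w + 1))) := by ring
        _ ≤ c₀ / (2 * 2 ^ w) * 1 := by gcongr
        _ < c₀ := by
            rw [mul_one, div_lt_iff₀ (by positivity)]
            nlinarith
    linarith
  · have hβne : ∃ u ∈ U, β u ≠ 0 := by
      by_cases hk' : k' = 0
      · have hk0 : k ≠ 0 := fun h => hk ⟨h, hk'⟩
        obtain ⟨r, hr, hbr⟩ := hb'
        have hr0 : r ≠ 0 := fun h => hB (h ▸ hr)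
        have hrA : r ∉ A := Finset.disjoint_right.1 hAB hr
        refine ⟨r, by rw [hU]; simp [hr], ?_⟩
        rw [hβ]
        simp only [if_neg hr0, if_pos hr, if_neg hrA, zero_sub, Ne, neg_eq_zero]
        exact mul_ne_zero hk0 hbr
      · obtain ⟨r, hr, hbr⟩ := hb
        have hr0 : r ≠ 0 := fun h => hA (h ▸ hr)
        have hrB : r ∉ B := Finset.disjoint_left.1 hAB hr
        refine ⟨r, by rw [hU]; simp [hr], ?_⟩
        rw [hβ]
        simp only [if_neg hr0, if_pos hr, if_neg hrB, sub_zero]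
        exact mul_ne_zero hk' hbr
    have hHH : H * H ≤ 2 * H ^ 2 := by nlinarith
    have h1 := hm β hβne (2 * H ^ 2) (by nlinarith) (fun u _ => by
      rw [hβ]
      by_cases hu0 : u = 0
      · simp only [if_pos hu0]
        push_cast
        calc |(k' : ℝ) * a - k * a'| ≤ |(k' : ℝ) * a| + |(k : ℝ) * a'| := abs_sub _ _
          _ ≤ H * H + H * H := by
              rw [abs_mul, abs_mul]
              gcongr
          _ = 2 * H ^ 2 := by ring
      · simp only [if_neg hu0]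
        by_cases huA : u ∈ A
        · have huB : u ∉ B := Finset.disjoint_left.1 hAB huA
          simp only [if_pos huA, if_neg huB, sub_zero]
          push_cast
          rw [abs_mul]
          refine le_trans ?_ hHH
          have := hbH u huA
          gcongr
        · simp only [if_neg huA, zero_sub]
          by_cases huB : u ∈ B
          · simp only [if_pos huB]
            push_cast
            rw [abs_neg, abs_mul]
            refine le_trans ?_ hHH
            have := hbH' u huB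
            gcongr
          · simp only [if_neg huB, neg_zero, Int.cast_zero, abs_zero]
            positivity)
    rw [hsum] at h1
    have h3 : |(k' : ℝ) * (a + ∑ r ∈ A, b r * Real.exp r + k * ξ) -
        (k : ℝ) * (a' + ∑ r ∈ B, b' r * Real.exp r + k' * ξ)| < 2 * H * ε := by
      have e1 : |(k' : ℝ) * (a + ∑ r ∈ A, b r * Real.exp r + k * ξ)| ≤
          H * |a + ∑ r ∈ A, b r * Real.exp r + k * ξ| := by
        rw [abs_mul]; gcongr
      have e2 : |(k : ℝ) * (a' + ∑ r ∈ B, b' r * Real.exp r + k' * ξ)| ≤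
          H * |a' + ∑ r ∈ B, b' r * Real.exp r + k' * ξ| := by
        rw [abs_mul]; gcongr
      calc _ ≤ _ := abs_sub _ _
        _ ≤ H * |a + ∑ r ∈ A, b r * Real.exp r + k * ξ| +
            H * |a' + ∑ r ∈ B, b' r * Real.exp r + k' * ξ| := add_le_add e1 e2
        _ < H * ε + H * ε := by gcongr
        _ = 2 * H * ε := by ring
    have h4 : (2 * H ^ 2) ^ w * (2 * H * ε) = c₀ := by
      rw [hε, Real.mul_rpow (by norm_num) (by positivity)]
      have e1 : (H ^ 2) ^ w = H ^ (2 * w) := by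
        rw [← Real.rpow_natCast, ← Real.rpow_mul hH0.le]
        norm_num
      have e2 : H ^ (2 * w) * H * H ^ (-(2 * w + 1)) = 1 := by
        rw [show H ^ (2 * w) * H = H ^ (2 * w + 1) by rw [Real.rpow_add hH0, Real.rpow_one],
          ← Real.rpow_add hH0]
        simp
      rw [e1]
      have h2w0 : (2 : ℝ) ^ w ≠ 0 := by positivity
      calc 2 ^ w * H ^ (2 * w) * (2 * H * (c₀ / (2 * 2 ^ w) * H ^ (-(2 * w + 1))))
          = (2 ^ w * 2 * (c₀ / (2 * 2 ^ w))) * (H ^ (2 * w) * H * H ^ (-(2 * w + 1))) := by ring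
        _ = c₀ := by
            rw [e2, mul_one]
            field_simp
    have h5 : (2 * H ^ 2) ^ w * |(k' : ℝ) * (a + ∑ r ∈ A, b r * Real.exp r + k * ξ) -
        (k : ℝ) * (a' + ∑ r ∈ B, b' r * Real.exp r + k' * ξ)| < (2 * H ^ 2) ^ w * (2 * H * ε) := by
      gcongr
    rw [h4] at h5
    linarith

end Pool.Agent.D0H21.PE
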