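import Pool.Agent.D0H21.PE.Ratio
import Pool.Agent.D0H21.PE.Fac

/-!
# Near relations between powers of two numbers
-/

set_option autoImplicit false

namespace Pool.Agent.D0H21.PE

open Polynomial Finset
open Pool.Agent.TH456.TM
open Pool.Agent.R356

/-- `x` and `z` satisfy an approximate relation of degree at most `D` in `x` and at most `d` in `z`,
with integral coefficients of absolute value at most `H`, up to an error smaller than `ε` -/
def Near (x z : ℂ) (D d : ℕ) (H ε : ℝ) : Prop :=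
  ∃ c : ℕ → ℕ → ℤ, (∃ i ≤ D, ∃ j ≤ d, c i j ≠ 0) ∧ (∀ i j, |(c i j : ℝ)| ≤ H) ∧
    ‖∑ i ∈ range (D + 1), ∑ j ∈ range (d + 1), (c i j : ℂ) * x ^ i * z ^ j‖ < ε

/-- the polynomial of a relation between `t ^ n` and `y ^ m` -/
noncomputable def GG (m n D d : ℕ) (c : ℕ → ℕ → ℤ) : ℤ[X][X] :=
  ∑ i ∈ range (D + 1), ∑ j ∈ range (d + 1), monomial (n * i) (monomial (m * j) (c i j))

lemma GG_vl (m n D d : ℕ) (c : ℕ → ℕ → ℤ) (y t : ℂ) : vl y t (GG m n D d c) =
    ∑ i ∈ range (D + 1), ∑ j ∈ range (d + 1), (c i j : ℂ) * (t ^ n) ^ i * (y ^ m) ^ j := by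
  rw [← evR_apply]
  unfold GG
  rw [map_sum]
  refine Finset.sum_congr rfl fun i _ => ?_
  rw [map_sum]
  refine Finset.sum_congr rfl fun j _ => ?_
  rw [evR_apply]
  unfold vl σx
  rw [map_monomial, eval_monomial]
  simp only [AlgHom.toRingHom_eq_coe, RingHom.coe_coe, aeval_monomial]
  rw [← pow_mul, ← pow_mul]
  simp only [algebraMap_int_eq, eq_intCast]
  ring

lemma GG_coeff (m n D d : ℕ) (hm : 0 < m) (hn : 0 < n) (c : ℕ → ℕ → ℤ) (k l : ℕ) :
    ((GG m n D d c).coeff k).coeff l = if n ∣ k ∧ m ∣ l ∧ k / n ≤ D ∧ l / m ≤ d then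
      c (k / n) (l / m) else 0 := by
  unfold GG
  rw [finsetSum_coeff, finsetSum_coeff]
  have h1 : ∀ i, ((∑ j ∈ range (d + 1), monomial (n * i) (monomial (m * j) (c i j)) : ℤ[X][X]).coeff k).coeff l
      = ∑ j ∈ range (d + 1), if i = k / n ∧ n ∣ k ∧ j = l / m ∧ m ∣ l then c i j else 0 := by
    intro i
    rw [finsetSum_coeff, finsetSum_coeff]
    refine Finset.sum_congr rfl fun j _ => ?_
    rw [coeff_monomial]
    by_cases h : n * i = k
    · rw [if_pos h, coeff_monomial]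
      by_cases h' : m * j = l
      · rw [if_pos h', if_pos]
        refine ⟨?_, ⟨i, h.symm⟩, ?_, ⟨j, h'.symm⟩⟩
        · rw [← h, Nat.mul_div_cancel_left _ hn]
        · rw [← h', Nat.mul_div_cancel_left _ hm]
      · rw [if_neg h', if_neg]
        rintro ⟨_, _, h2, h3⟩
        exact h' (by rw [h2, Nat.mul_div_cancel' h3])
    · rw [if_neg h, coeff_zero, if_neg]
      rintro ⟨h2, h3, _⟩
      exact h (by rw [h2, Nat.mul_div_cancel' h3])
  rw [Finset.sum_congr rfl fun i _ => h1 i]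
  by_cases h : n ∣ k ∧ m ∣ l ∧ k / n ≤ D ∧ l / m ≤ d
  · obtain ⟨h2, h3, h4, h5⟩ := h
    rw [if_pos ⟨h2, h3, h4, h5⟩, Finset.sum_eq_single (k / n)]
    · rw [Finset.sum_eq_single (l / m)]
      · rw [if_pos ⟨rfl, h2, rfl, h3⟩]
      · intro j _ hj
        rw [if_neg fun h => hj h.2.2.1]
      · intro hj
        exact absurd (Finset.mem_range.2 (by omega)) hj
    · intro i _ hi
      refine Finset.sum_eq_zero fun j _ => ?_
      rw [if_neg fun h => hi h.1]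
    · intro hi
      exact absurd (Finset.mem_range.2 (by omega)) hi
  · rw [if_neg h]
    refine Finset.sum_eq_zero fun i hi => Finset.sum_eq_zero fun j hj => ?_
    rw [Finset.mem_range] at hi hj
    rw [if_neg]
    rintro ⟨h2, h3, h4, h5⟩
    exact h ⟨h3, h5, by omega, by omega⟩

lemma GG_ne (m n D d : ℕ) (hm : 0 < m) (hn : 0 < n) (c : ℕ → ℕ → ℤ)
    (hc : ∃ i ≤ D, ∃ j ≤ d, c i j ≠ 0) : GG m n D d c ≠ 0 := by
  obtain ⟨i, hi, j, hj, h⟩ := hc
  intro h0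
  have h1 := GG_coeff m n D d hm hn c (n * i) (m * j)
  rw [h0, coeff_zero, coeff_zero, Nat.mul_div_cancel_left _ hn, Nat.mul_div_cancel_left _ hm,
    if_pos ⟨dvd_mul_right _ _, dvd_mul_right _ _, hi, hj⟩] at h1
  exact h h1.symm

lemma GG_natDegree (m n D d : ℕ) (c : ℕ → ℕ → ℤ) : (GG m n D d c).natDegree ≤ n * D := by
  unfold GG
  refine natDegree_sum_le_of_forall_le _ _ fun i hi => natDegree_sum_le_of_forall_le _ _ fun j _ => ?_
  rw [Finset.mem_range] at hi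
  exact (natDegree_monomial_le _).trans (Nat.mul_le_mul_left _ (by omega))

lemma GG_ideg (m n D d : ℕ) (c : ℕ → ℕ → ℤ) : ideg (GG m n D d c) ≤ m * d := by
  refine ideg_le _ _ fun k => ?_
  unfold GG
  rw [finsetSum_coeff]
  refine natDegree_sum_le_of_forall_le _ _ fun i _ => ?_
  rw [finsetSum_coeff]
  refine natDegree_sum_le_of_forall_le _ _ fun j hj => ?_
  rw [Finset.mem_range] at hj
  rw [coeff_monomial]
  split_ifs
  · exact (natDegree_monomial_le _).trans (Nat.mul_le_mul_left _ (by omega))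
  · simp

lemma GG_hgt (m n D d : ℕ) (hm : 0 < m) (hn : 0 < n) (c : ℕ → ℕ → ℤ) (H : ℝ) (hH : 0 ≤ H)
    (hc : ∀ i j, |(c i j : ℝ)| ≤ H) : (hgt (GG m n D d c) : ℝ) ≤ H := by
  refine hgt_le _ _ hH fun k l => ?_
  rw [GG_coeff m n D d hm hn]
  split_ifs
  · exact hc _ _
  · simpa using hH

/-- a number `t₀` for which an irreducible relation holds -/
lemma exists_point (y : ℂ) (hy : Transcendental ℤ y) (F : ℤ[X][X]) (hF : Irreducible F)
    (h1 : 0 < F.natDegree) (h2 : 0 < ideg F) : ∃ t₀ : ℂ, Transcendental ℚ t₀ ∧ vl y t₀ F = 0 := by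
  have hlc : σx y F.leadingCoeff ≠ 0 := by
    intro h0
    exact hy ⟨F.leadingCoeff, leadingCoeff_ne_zero.2 hF.ne_zero, h0⟩
  have hdeg : (F.map (σx y)).natDegree = F.natDegree := natDegree_map_of_leadingCoeff_ne_zero _ hlc
  obtain ⟨t₀, ht₀⟩ := Complex.exists_root (f := F.map (σx y)) (by
    rw [← natDegree_pos_iff_degree_pos, hdeg]
    exact h1)
  refine ⟨t₀, fun halg => ?_, ht₀⟩
  have halg' : IsAlgebraic ℤ t₀ := (IsFractionRing.isAlgebraic_iff ℤ ℚ ℂ).2 halg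
  obtain ⟨P, hP, hP0⟩ := halg'
  obtain ⟨m, hm, hmα⟩ := exists_irr_factor t₀ P hP hP0
  -- the polynomial `F(X, t₀)`
  by_cases hz : (Bivariate.swap F).map (σx t₀) = 0
  · have h2' : C m ∣ Bivariate.swap F := by
      rw [C_dvd_iff_dvd_coeff]
      intro i
      refine dvd_of_root m _ hm t₀ hmα ?_
      have h3 : ((Bivariate.swap F).map (σx t₀)).coeff i = 0 := by rw [hz, coeff_zero]
      rw [coeff_map] at h3
      exact h3
    have h3 : Irreducible (Bivariate.swap F) := (MulEquiv.irreducible_iff Bivariate.swap).2 hF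
    rcases (dvd_iff_exists_eq_mul_left.1 h2') with ⟨c, hc⟩
    rcases h3.isUnit_or_isUnit hc with h5 | h5
    · obtain ⟨r, hr, hrc⟩ := Polynomial.isUnit_iff.1 h5
      unfold ideg at h2
      rw [hc, ← hrc, ← C_mul, natDegree_C] at h2
      exact lt_irrefl _ h2
    · exact absurd (isUnit_C.1 h5) hm.not_isUnit
  · -- then `y` is algebraic
    apply hy
    have hroot : ((Bivariate.swap F).map (σx t₀)).eval y = 0 := by
      have : vl t₀ y (Bivariate.swap F) = 0 := by rw [vl_swap]; exact ht₀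
      exact this
    have hlift : (Bivariate.swap F).map (σx t₀) ∈ Polynomial.lifts (algebraMap (algebraicClosure ℚ ℂ) ℂ) := by
      rw [Polynomial.lifts_iff_coeff_lifts]
      intro i
      rw [coeff_map]
      have hmem : t₀ ∈ algebraicClosure ℚ ℂ := by
        rw [mem_algebraicClosure_iff]
        exact halg
      refine ⟨aeval (⟨t₀, hmem⟩ : algebraicClosure ℚ ℂ) ((Bivariate.swap F).coeff i), ?_⟩
      rw [← aeval_algebraMap_apply]
      rfl
    obtain ⟨g, hg⟩ := hlift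
    have hyA : IsAlgebraic (algebraicClosure ℚ ℂ) y := by
      refine ⟨g, fun h => hz ?_, ?_⟩
      · rw [← hg, h]; simp
      · rw [aeval_def, ← eval_map]
        have : g.map (algebraMap (algebraicClosure ℚ ℂ) ℂ) = (Bivariate.swap F).map (σx t₀) := hg
        rw [this]
        exact hroot
    have hyQ : IsAlgebraic ℚ y := by
      have hA : @Algebra.IsAlgebraic ℚ (algebraicClosure ℚ ℂ) _ _ (algebraicClosure ℚ ℂ).algebra' :=
        algebraicClosure.isAlgebraic ℚ ℂ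
      exact @IsAlgebraic.restrictScalars ℚ (algebraicClosure ℚ ℂ) ℂ _ _ _ (algebraicClosure ℚ ℂ).algebra' _ _ _ _ hA y hyA
    exact (IsFractionRing.isAlgebraic_iff ℤ ℚ ℂ).2 hyQ

lemma rel_of_vl (m n D d : ℕ) (c : ℕ → ℕ → ℤ) (hc : ∃ i ≤ D, ∃ j ≤ d, c i j ≠ 0) (y t : ℂ)
    (h : vl y t (GG m n D d c) = 0) : Rel ℚ (t ^ n) (y ^ m) D d := by
  refine ⟨fun i j => (c i j : ℚ), ?_, ?_⟩
  · obtain ⟨i, hi, j, hj, h1⟩ := hc
    exact ⟨i, hi, j, hj, Int.cast_ne_zero.2 h1⟩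
  · rw [GG_vl] at h
    rw [← h]
    refine Finset.sum_congr rfl fun i _ => Finset.sum_congr rfl fun j _ => ?_
    simp

/-- **Near relations.** -/
theorem near_core (y : ℂ) (hy : MeasT y) (N₁ N D d : ℕ) :
    ∃ κ : ℝ, 0 < κ ∧ ∀ T : ℝ, ∃ C : ℝ, 0 < C ∧ ∀ t : ℂ, ‖t‖ ≤ T → ∀ H : ℝ, 1 ≤ H →
      ∀ δ : ℝ, 0 < δ → δ ≤ C * H ^ (-κ) →
      (∃ q : ℤ[X], q ≠ 0 ∧ q.natDegree ≤ N₁ * D ∧
        (∀ k, |((q.coeff k : ℤ) : ℝ)| ≤ KF (N₁ * D + N * d + 1) * H) ∧ ‖aeval t q‖ < δ) ∨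
      (∃ h : ℚ, 0 < h ∧ ∀ m n : ℕ, 0 < m → m ≤ N → 0 < n → n ≤ N₁ →
        Near (t ^ n) (y ^ m) D d H (δ ^ (2 * (N₁ * D + N * d + 1))) →
        ∃ a b : ℕ, 1 ≤ a ∧ a ≤ D ∧ 1 ≤ b ∧ b ≤ d ∧ (m : ℚ) / n * h = a / b) := by
  obtain ⟨E, hE⟩ : ∃ E : ℕ, E = N₁ * D + N * d + 1 := ⟨_, rfl⟩
  rw [← hE]
  obtain ⟨κ₁, hκ₁, hcore⟩ := core y hy E (by omega)
  obtain ⟨κ₂, hκ₂, C₂, hC₂, hzero⟩ := core_zero y hy E
  have hyT : Transcendental ℤ y := transcendental_of_measT hy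
  have hK := KF_pos E
  have hK0 : 0 < KF E := by linarith
  refine ⟨max κ₁ κ₂, lt_max_of_lt_left hκ₁, fun T => ?_⟩
  obtain ⟨C₁, hC₁, hcore⟩ := hcore T
  refine ⟨min 1 (min (C₁ * (KF E) ^ (-κ₁)) (C₂ * (KF E) ^ (-κ₂))), by positivity, ?_⟩
  intro t ht H hH δ hδ hδC
  have hH0 : 0 < H := by linarith
  have hHm : H ^ (-(max κ₁ κ₂)) ≤ 1 := Real.rpow_le_one_of_one_le_of_nonpos hH (by
    have := lt_max_of_lt_left (b := κ₁) (c := κ₂) hκ₁
    linarith)
  have hHp : 0 < H ^ (-(max κ₁ κ₂)) := by positivity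
  have hδ1 : δ ≤ 1 := by
    refine hδC.trans ?_
    calc _ ≤ 1 * 1 := mul_le_mul (min_le_left _ _) hHm hHp.le zero_le_one
      _ = 1 := one_mul _
  have hle1 : δ ≤ C₁ * (KF E * H) ^ (-κ₁) := by
    refine hδC.trans ?_
    rw [Real.mul_rpow hK0.le hH0.le, ← mul_assoc]
    refine mul_le_mul ((min_le_right _ _).trans (min_le_left _ _)) ?_ hHp.le (by positivity)
    exact Real.rpow_le_rpow_of_exponent_le hH (by have := le_max_left κ₁ κ₂; linarith)
  have hle2 : δ ≤ C₂ * (KF E * H) ^ (-κ₂) := by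
    refine hδC.trans ?_
    rw [Real.mul_rpow hK0.le hH0.le, ← mul_assoc]
    refine mul_le_mul ((min_le_right _ _).trans (min_le_right _ _)) ?_ hHp.le (by positivity)
    exact Real.rpow_le_rpow_of_exponent_le hH (by have := le_max_right κ₁ κ₂; linarith)
  -- a small factor for each near relation
  have hfac : ∀ m n : ℕ, 0 < m → m ≤ N → 0 < n → n ≤ N₁ →
      Near (t ^ n) (y ^ m) D d H (δ ^ (2 * E)) → ∃ c : ℕ → ℕ → ℤ, (∃ i ≤ D, ∃ j ≤ d, c i j ≠ 0) ∧
      ∃ F ∈ IR E, F ∣ GG m n D d c ∧ 0 < F.natDegree + ideg F ∧ ‖vl y t F‖ < δ ∧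
        (hgt F : ℝ) ≤ KF E * H := by
    rintro m n hm hmN hn hnN ⟨c, hc, hcH, hsm⟩
    refine ⟨c, hc, exists_small_factor y t E _ (GG_ne m n D d hm hn c hc) ?_ ?_ H
      (GG_hgt m n D d hm hn c H hH0.le hcH) δ hδ hδ1 ?_⟩
    · refine (GG_natDegree m n D d c).trans ?_
      have : n * D ≤ N₁ * D := Nat.mul_le_mul_right _ hnN
      omega
    · refine (GG_ideg m n D d c).trans ?_
      have : m * d ≤ N * d := Nat.mul_le_mul_right _ hmN
      omega
    · rw [GG_vl]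
      exact hsm
  by_cases hex : ∃ m n : ℕ, 0 < m ∧ m ≤ N ∧ 0 < n ∧ n ≤ N₁ ∧
      Near (t ^ n) (y ^ m) D d H (δ ^ (2 * E))
  swap
  · right
    refine ⟨1, one_pos, fun m n hm hmN hn hnN h => absurd ⟨m, n, hm, hmN, hn, hnN, h⟩ hex⟩
  obtain ⟨m₀, n₀, hm₀, hmN₀, hn₀, hnN₀, h₀⟩ := hex
  obtain ⟨c₀, hc₀, F, hFI, hFG, hFd, hFs, hFh⟩ := hfac m₀ n₀ hm₀ hmN₀ hn₀ hnN₀ h₀
  have hF0 : 0 < F.natDegree := by
    rcases Nat.eq_zero_or_pos F.natDegree with h1 | h1
    · have h2 := hzero t F hFI h1 (KF E * H) hFh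
      linarith
    · exact h1
  rcases Nat.eq_zero_or_pos (ideg F) with hi | hi
  · left
    have hsw : Bivariate.swap F = C ((Bivariate.swap F).coeff 0) := eq_C_of_natDegree_eq_zero hi
    have hF2 : F = Bivariate.swap (C ((Bivariate.swap F).coeff 0)) := by
      rw [← hsw, Bivariate.swap_swap_apply]
    refine ⟨(Bivariate.swap F).coeff 0, ?_, ?_, ?_, ?_⟩
    · intro h
      rw [h, C_0, map_zero] at hF2
      exact hFI.1.ne_zero hF2
    · have hFD : F.natDegree ≤ N₁ * D := by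
        obtain ⟨R, hR⟩ := hFG
        have hG0 := GG_ne m₀ n₀ D d hm₀ hn₀ c₀ hc₀
        have hR0 : R ≠ 0 := fun h => hG0 (by rw [hR, h, mul_zero])
        have h1 := natDegree_mul hFI.1.ne_zero hR0
        rw [← hR] at h1
        have h2 := GG_natDegree m₀ n₀ D d c₀
        have h3 : n₀ * D ≤ N₁ * D := Nat.mul_le_mul_right _ hnN₀
        omega
      rw [natDegree_le_iff_coeff_eq_zero]
      intro k hk
      rw [swap_coeff, coeff_eq_zero_of_natDegree_lt (lt_of_le_of_lt hFD hk), coeff_zero]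
    · intro k
      rw [swap_coeff]
      exact (abs_coeff_le _ _ _).trans hFh
    · have h1 : vl y t F = aeval t ((Bivariate.swap F).coeff 0) := by
        rw [← vl_swap, hsw]
        unfold vl σx
        simp
      rw [← h1]
      exact hFs
  · right
    obtain ⟨t₀, ht₀, hFt⟩ := exists_point y hyT F hFI.1 hF0 hi
    have hyQ : Transcendental ℚ y := fun h => hyT ((IsFractionRing.isAlgebraic_iff ℤ ℚ ℂ).2 h)
    obtain ⟨h, hh, hr⟩ := ratio (K := ℚ) t₀ y ht₀ hyQ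
    refine ⟨h, hh, fun m n hm hmN hn hnN hnear => ?_⟩
    obtain ⟨c, hc, F', hFI', hFG', hFd', hFs', hFh'⟩ := hfac m n hm hmN hn hnN hnear
    have hFF : F' = F := by
      by_contra hne
      have h1 := hcore t ht F' hFI' F hFI hne (KF E * H) hFh' hFh
      have h2 : max ‖vl y t F'‖ ‖vl y t F‖ < δ := max_lt hFs' hFs
      linarith
    subst hFF
    refine hr m n hm hn D d (rel_of_vl m n D d c hc y t₀ ?_)
    obtain ⟨R, hR⟩ := hFG'
    rw [hR, ← evR_apply, map_mul, evR_apply, hFt, zero_mul]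

end Pool.Agent.D0H21.PE
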