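import Pool.Agent.D0H21.PE.Near

/-!
# Near relations between rational powers
-/

set_option autoImplicit false

namespace Pool.Agent.D0H21.PE

open Polynomial Finset
open Pool.Agent.TH456.TM
open Pool.Agent.R356

lemma Near.mono {x z : ℂ} {D d : ℕ} {H ε ε' : ℝ} (h : Near x z D d H ε) (hε : ε ≤ ε') :
    Near x z D d H ε' := by
  obtain ⟨c, h1, h2, h3⟩ := h
  exact ⟨c, h1, h2, h3.trans_le hε⟩

lemma Near.symm {x z : ℂ} {D d : ℕ} {H ε : ℝ} (h : Near x z D d H ε) : Near z x d D H ε := by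
  obtain ⟨c, ⟨i, hi, j, hj, hc⟩, h2, h3⟩ := h
  refine ⟨fun j i => c i j, ⟨j, hj, i, hi, hc⟩, fun i j => h2 j i, ?_⟩
  have : ∑ i ∈ range (d + 1), ∑ j ∈ range (D + 1), (c j i : ℂ) * z ^ i * x ^ j =
      ∑ i ∈ range (D + 1), ∑ j ∈ range (d + 1), (c i j : ℂ) * x ^ i * z ^ j := by
    rw [Finset.sum_comm]
    refine Finset.sum_congr rfl fun i _ => Finset.sum_congr rfl fun j _ => ?_
    ring
  rw [this]
  exact h3

lemma Near.inv_right {x z : ℂ} {D d : ℕ} {H ε : ℝ} (hz : z ≠ 0) (h : Near x z⁻¹ D d H ε) :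
    Near x z D d H (ε * ‖z‖ ^ d) := by
  obtain ⟨c, ⟨i, hi, j, hj, hc⟩, h2, h3⟩ := h
  refine ⟨fun i j => if j ≤ d then c i (d - j) else 0, ⟨i, hi, d - j, by omega, ?_⟩, fun i j => ?_, ?_⟩
  · simp only [Nat.sub_le, if_true]
    rwa [Nat.sub_sub_self hj]
  · simp only
    split_ifs
    · exact h2 _ _
    · have := (abs_nonneg _).trans (h2 0 0)
      simpa using this
  · have h4 : ∑ i ∈ range (D + 1), ∑ j ∈ range (d + 1),
        (((if j ≤ d then c i (d - j) else 0 : ℤ)) : ℂ) * x ^ i * z ^ j =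
        (∑ i ∈ range (D + 1), ∑ j ∈ range (d + 1), (c i j : ℂ) * x ^ i * z⁻¹ ^ j) * z ^ d := by
      rw [Finset.sum_mul]
      refine Finset.sum_congr rfl fun i _ => ?_
      rw [← Finset.sum_range_reflect (fun j => (((if j ≤ d then c i (d - j) else 0 : ℤ)) : ℂ) * x ^ i * z ^ j),
        Finset.sum_mul]
      refine Finset.sum_congr rfl fun j hj => ?_
      rw [Finset.mem_range] at hj
      have e1 : d + 1 - 1 - j = d - j := by omega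
      rw [e1, if_pos (Nat.sub_le _ _), Nat.sub_sub_self (by omega)]
      have e2 : z ^ d = z ^ (d - j) * z ^ j := by rw [← pow_add]; congr 1; omega
      rw [e2, inv_pow]
      field_simp
    rw [h4, norm_mul, norm_pow]
    have : 0 < ‖z‖ ^ d := pow_pos (norm_pos_iff.2 hz) d
    gcongr

lemma Near.inv_left {x z : ℂ} {D d : ℕ} {H ε : ℝ} (hx : x ≠ 0) (h : Near x⁻¹ z D d H ε) :
    Near x z D d H (ε * ‖x‖ ^ D) := (h.symm.inv_right hx).symm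

/-- a common denominator for the exponents -/
lemma exists_denom (g : ℝ) (hg : 0 < g) (R : Finset ℚ) (hR : ∀ r ∈ R, r ≠ 0) :
    ∃ Q N : ℕ, 0 < Q ∧ ∀ r ∈ R, ∃ m : ℕ, 0 < m ∧ m ≤ N ∧ |r| = (m : ℚ) / Q ∧
      (g ^ (r : ℝ) = (g ^ (((1 / Q : ℚ)) : ℝ)) ^ m ∨ g ^ (r : ℝ) = ((g ^ (((1 / Q : ℚ)) : ℝ)) ^ m)⁻¹) := by
  obtain ⟨Q, hQ⟩ : ∃ Q : ℕ, Q = ∏ r ∈ R, r.den := ⟨_, rfl⟩
  have hQ0 : 0 < Q := by
    rw [hQ]
    exact Finset.prod_pos fun r _ => r.den_pos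
  have hm : ∀ r ∈ R, 0 < r.num.natAbs * (Q / r.den) ∧ |r| = ((r.num.natAbs * (Q / r.den) : ℕ) : ℚ) / Q := by
    intro r hr
    have hd : r.den ∣ Q := by rw [hQ]; exact Finset.dvd_prod_of_mem _ hr
    have hn : 0 < r.num.natAbs := by
      rw [Int.natAbs_pos]
      exact Rat.num_ne_zero.2 (hR r hr)
    refine ⟨Nat.mul_pos hn (Nat.div_pos (Nat.le_of_dvd hQ0 hd) r.den_pos), ?_⟩
    obtain ⟨k, hk⟩ := hd
    have hk0 : 0 < k := by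
      rcases Nat.eq_zero_or_pos k with h | h
      · rw [h, mul_zero] at hk; omega
      · exact h
    rw [hk, Nat.mul_div_cancel_left _ r.den_pos]
    have h1 : |r| = (r.num.natAbs : ℚ) / r.den := by
      conv_lhs => rw [← Rat.num_div_den r]
      rw [abs_div, Nat.abs_cast, Nat.cast_natAbs, Int.cast_abs]
    rw [h1]
    have h2 : (r.den : ℚ) ≠ 0 := by exact_mod_cast r.den_pos.ne'
    have h3 : (k : ℚ) ≠ 0 := by exact_mod_cast hk0.ne'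
    push_cast
    field_simp
  refine ⟨Q, ∑ r ∈ R, r.num.natAbs * (Q / r.den), hQ0, fun r hr => ?_⟩
  obtain ⟨h1, h2⟩ := hm r hr
  refine ⟨r.num.natAbs * (Q / r.den), h1,
    Finset.single_le_sum (f := fun r : ℚ => r.num.natAbs * (Q / r.den)) (fun _ _ => Nat.zero_le _) hr,
    h2, ?_⟩
  obtain ⟨m, hm'⟩ : ∃ m : ℕ, m = r.num.natAbs * (Q / r.den) := ⟨_, rfl⟩
  rw [← hm'] at h2 ⊢
  have h3 : (g ^ (((1 / Q : ℚ)) : ℝ)) ^ m = g ^ ((|r| : ℚ) : ℝ) := by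
    rw [← Real.rpow_natCast, ← Real.rpow_mul hg.le, h2]
    congr 1
    push_cast
    ring
  rw [h3]
  rcases lt_or_gt_of_ne (hR r hr) with h | h
  · right
    rw [← Real.rpow_neg hg.le, abs_of_neg h]
    congr 1
    push_cast
    ring
  · left
    rw [abs_of_pos h]

lemma near_pow_z {x : ℂ} {y : ℂ} (hy : y ≠ 0) {D d m N : ℕ} (hmN : m ≤ N) {H ε : ℝ} (hε : 0 ≤ ε) {z : ℂ}
    (hz : z = y ^ m ∨ z = (y ^ m)⁻¹) (h : Near x z D d H ε) :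
    Near x (y ^ m) D d H (ε * (max 1 ‖y‖) ^ (N * d)) := by
  have h1 : (1 : ℝ) ≤ (max 1 ‖y‖) ^ (N * d) := one_le_pow₀ (le_max_left _ _)
  rcases hz with hz | hz
  · rw [hz] at h
    refine h.mono ?_
    nlinarith
  · rw [hz] at h
    refine (h.inv_right (pow_ne_zero m hy)).mono ?_
    refine mul_le_mul_of_nonneg_left ?_ hε
    rw [norm_pow, ← pow_mul]
    calc ‖y‖ ^ (m * d) ≤ (max 1 ‖y‖) ^ (m * d) := pow_le_pow_left₀ (norm_nonneg _) (le_max_right _ _) _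
      _ ≤ _ := pow_le_pow_right₀ (le_max_left _ _) (Nat.mul_le_mul_right _ hmN)

lemma near_pow_x {z : ℂ} {y : ℂ} (hy : y ≠ 0) {D d m N : ℕ} (hmN : m ≤ N) {H ε : ℝ} (hε : 0 ≤ ε) {x : ℂ}
    (hx : x = y ^ m ∨ x = (y ^ m)⁻¹) (h : Near x z D d H ε) :
    Near (y ^ m) z D d H (ε * (max 1 ‖y‖) ^ (N * D)) :=
  (near_pow_z hy hmN hε hx h.symm).symm

/-- **Near relations between powers of `ξ` and of a number with a transcendence measure**, for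
arbitrary `ξ` -/
theorem near_arb (g : ℝ) (hg : 0 < g) (hgM : MeasT (g : ℂ)) (D d : ℕ) (R : Finset ℚ)
    (hR : ∀ r ∈ R, r ≠ 0) (T κ₁ : ℝ) (hκ₁ : 0 < κ₁) :
    ∃ κ c C : ℝ, 0 < κ ∧ 0 < c ∧ 0 < C ∧ ∀ ξ : ℂ, ‖ξ‖ ≤ T → ∀ H : ℝ, 1 ≤ H →
      (∃ q : ℤ[X], q ≠ 0 ∧ q.natDegree ≤ D ∧ (∀ k, |(q.coeff k : ℝ)| ≤ C * H) ∧
        ‖aeval ξ q‖ < H ^ (-κ₁)) ∨
      (∃ h : ℚ, 0 < h ∧ ∀ r ∈ R, Near ξ ((g ^ (r : ℝ) : ℝ) : ℂ) D d H (c * H ^ (-κ)) →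
        ∃ a b : ℕ, 1 ≤ a ∧ a ≤ D ∧ 1 ≤ b ∧ b ≤ d ∧ |r| * h = a / b) := by
  obtain ⟨Q, N, hQ, hden⟩ := exists_denom g hg R hR
  obtain ⟨y, hy⟩ : ∃ y : ℝ, y = g ^ (((1 / Q : ℚ)) : ℝ) := ⟨_, rfl⟩
  have hy0 : 0 < y := by rw [hy]; positivity
  have hyc : (y : ℂ) ≠ 0 := by exact_mod_cast hy0.ne'
  have hQ1 : (1 / Q : ℚ) ≠ 0 := by
    have : (Q : ℚ) ≠ 0 := by exact_mod_cast hQ.ne'
    positivity
  have hyM : MeasT (y : ℂ) := by rw [hy]; exact measT_rpow g hg hgM _ hQ1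
  obtain ⟨κ₀, hκ₀, hcore⟩ := near_core (y : ℂ) hyM 1 N D d
  obtain ⟨C₀, hC₀, hcore⟩ := hcore T
  rw [one_mul] at hcore
  obtain ⟨E, hE⟩ : ∃ E : ℕ, E = D + N * d + 1 := ⟨_, rfl⟩
  rw [← hE] at hcore
  obtain ⟨w, hw⟩ : ∃ w : ℝ, w = max κ₀ κ₁ := ⟨_, rfl⟩
  have hw0 : 0 < w := by rw [hw]; exact lt_max_of_lt_left hκ₀
  obtain ⟨c₁, hc₁⟩ : ∃ c₁ : ℝ, c₁ = min C₀ 1 / 2 := ⟨_, rfl⟩
  have hc₁0 : 0 < c₁ := by rw [hc₁]; positivity
  obtain ⟨M, hM⟩ : ∃ M : ℝ, M = (max 1 ‖(y : ℂ)‖) ^ (N * d) := ⟨_, rfl⟩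
  have hM1 : 1 ≤ M := by rw [hM]; exact one_le_pow₀ (le_max_left _ _)
  have hK := KF_pos E
  have hE0 : (0 : ℝ) < ((2 * E : ℕ) : ℝ) := by
    have : 0 < 2 * E := by omega
    exact_mod_cast this
  refine ⟨w * (2 * E : ℕ), c₁ ^ (2 * E) / M, KF E, mul_pos hw0 hE0, by positivity, by linarith, ?_⟩
  intro ξ hξ H hH
  have hH0 : 0 < H := by linarith
  have hHw : 0 < H ^ (-w) := by positivity
  have e1 : c₁ * H ^ (-w) ≤ C₀ * H ^ (-κ₀) := by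
    have h1 : c₁ ≤ C₀ := by
      rw [hc₁]
      have := min_le_left C₀ 1
      linarith
    have h2 : H ^ (-w) ≤ H ^ (-κ₀) := Real.rpow_le_rpow_of_exponent_le hH (by
      have := le_max_left κ₀ κ₁
      linarith)
    gcongr
  have e2 : c₁ * H ^ (-w) ≤ H ^ (-κ₁) := by
    have h1 : c₁ ≤ 1 := by
      rw [hc₁]
      have := min_le_right C₀ 1
      linarith
    have h2 : H ^ (-w) ≤ H ^ (-κ₁) := Real.rpow_le_rpow_of_exponent_le hH (by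
      have := le_max_right κ₀ κ₁
      linarith)
    calc c₁ * H ^ (-w) ≤ 1 * H ^ (-κ₁) := by gcongr
      _ = _ := one_mul _
  rcases hcore ξ hξ H hH (c₁ * H ^ (-w)) (by positivity) e1 with h | h
  · left
    obtain ⟨q, hq, hqd, hqc, hqs⟩ := h
    exact ⟨q, hq, hqd, hqc, hqs.trans_le e2⟩
  · right
    obtain ⟨h, hh, hr⟩ := h
    have hQq : (0 : ℚ) < Q := by exact_mod_cast hQ
    refine ⟨h * Q, mul_pos hh hQq, fun r hrR hnear => ?_⟩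
    obtain ⟨m, hm, hmN, hrm, hgr⟩ := hden r hrR
    rw [← hy] at hgr
    have hgr' : ((g ^ (r : ℝ) : ℝ) : ℂ) = (y : ℂ) ^ m ∨ ((g ^ (r : ℝ) : ℝ) : ℂ) = ((y : ℂ) ^ m)⁻¹ := by
      rcases hgr with h1 | h1
      · left; rw [h1]; push_cast; rfl
      · right; rw [h1]; push_cast; rfl
    have h1 := near_pow_z hyc hmN (by positivity) hgr' hnear
    rw [← hM] at h1
    have h2 : c₁ ^ (2 * E) / M * H ^ (-(w * (2 * E : ℕ))) * M ≤ (c₁ * H ^ (-w)) ^ (2 * E) := by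
      have h3 : H ^ (-(w * (2 * E : ℕ))) = (H ^ (-w)) ^ (2 * E) := by
        rw [← Real.rpow_natCast (H ^ (-w)), ← Real.rpow_mul hH0.le]
        congr 1
        ring
      rw [h3, mul_pow]
      have hM0 : M ≠ 0 := by positivity
      apply le_of_eq
      field_simp
    obtain ⟨a, b, ha, haD, hb, hbd, hab⟩ := hr m 1 hm hmN one_pos le_rfl (by
      rw [pow_one]
      exact h1.mono h2)
    refine ⟨a, b, ha, haD, hb, hbd, ?_⟩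
    rw [← hab, hrm]
    have : (Q : ℚ) ≠ 0 := by exact_mod_cast hQ.ne'
    push_cast
    field_simp

/-- **Near relations between rational powers of two numbers with transcendence measures** -/
theorem near_two (g f : ℝ) (hg : 0 < g) (hf : 0 < f) (hgM : MeasT (g : ℂ)) (hfM : MeasT (f : ℂ))
    (D d : ℕ) (S : Finset (ℚ × ℚ)) (hS : ∀ p ∈ S, p.1 ≠ 0 ∧ p.2 ≠ 0) :
    ∃ κ c : ℝ, 0 < κ ∧ 0 < c ∧ ∀ H : ℝ, 1 ≤ H →
      ∃ h : ℚ, 0 < h ∧ ∀ p ∈ S,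
        Near ((f ^ (p.2 : ℝ) : ℝ) : ℂ) ((g ^ (p.1 : ℝ) : ℝ) : ℂ) D d H (c * H ^ (-κ)) →
        ∃ a b : ℕ, 1 ≤ a ∧ a ≤ D ∧ 1 ≤ b ∧ b ≤ d ∧ |p.1| / |p.2| * h = a / b := by
  classical
  obtain ⟨Q, N, hQ, hden⟩ := exists_denom g hg (S.image Prod.fst) (fun r hr => by
    obtain ⟨p, hp, rfl⟩ := Finset.mem_image.1 hr
    exact (hS p hp).1)
  obtain ⟨Q', N', hQ', hden'⟩ := exists_denom f hf (S.image Prod.snd) (fun r hr => by
    obtain ⟨p, hp, rfl⟩ := Finset.mem_image.1 hr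
    exact (hS p hp).2)
  obtain ⟨y, hy⟩ : ∃ y : ℝ, y = g ^ (((1 / Q : ℚ)) : ℝ) := ⟨_, rfl⟩
  obtain ⟨t, ht⟩ : ∃ t : ℝ, t = f ^ (((1 / Q' : ℚ)) : ℝ) := ⟨_, rfl⟩
  have hy0 : 0 < y := by rw [hy]; positivity
  have ht0 : 0 < t := by rw [ht]; positivity
  have hyc : (y : ℂ) ≠ 0 := by exact_mod_cast hy0.ne'
  have htc : (t : ℂ) ≠ 0 := by exact_mod_cast ht0.ne'
  have hQ1 : (1 / Q : ℚ) ≠ 0 := by
    have : (Q : ℚ) ≠ 0 := by exact_mod_cast hQ.ne'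
    positivity
  have hQ1' : (1 / Q' : ℚ) ≠ 0 := by
    have : (Q' : ℚ) ≠ 0 := by exact_mod_cast hQ'.ne'
    positivity
  have hyM : MeasT (y : ℂ) := by rw [hy]; exact measT_rpow g hg hgM _ hQ1
  have htM : MeasT (t : ℂ) := by rw [ht]; exact measT_rpow f hf hfM _ hQ1'
  obtain ⟨κ₀, hκ₀, hcore⟩ := near_core (y : ℂ) hyM N' N D d
  obtain ⟨C₀, hC₀, hcore⟩ := hcore ‖(t : ℂ)‖
  obtain ⟨E, hE⟩ : ∃ E : ℕ, E = N' * D + N * d + 1 := ⟨_, rfl⟩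
  rw [← hE] at hcore
  obtain ⟨κ₁, c₂, hκ₁, hc₂, hmeas⟩ := htM (N' * D)
  have hK := KF_pos E
  have hK0 : 0 < KF E := by linarith
  obtain ⟨w, hw⟩ : ∃ w : ℝ, w = max κ₀ κ₁ := ⟨_, rfl⟩
  have hw0 : 0 < w := by rw [hw]; exact lt_max_of_lt_left hκ₀
  obtain ⟨c₁, hc₁⟩ : ∃ c₁ : ℝ, c₁ = min C₀ (c₂ * (KF E) ^ (-κ₁)) := ⟨_, rfl⟩
  have hc₁0 : 0 < c₁ := by rw [hc₁]; positivity
  obtain ⟨M, hM⟩ : ∃ M : ℝ, M = (max 1 ‖(y : ℂ)‖) ^ (N * d) * (max 1 ‖(t : ℂ)‖) ^ (N' * D) := ⟨_, rfl⟩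
  have hM0 : 0 < M := by rw [hM]; positivity
  have hE0 : (0 : ℝ) < ((2 * E : ℕ) : ℝ) := by
    have : 0 < 2 * E := by omega
    exact_mod_cast this
  refine ⟨w * (2 * E : ℕ), c₁ ^ (2 * E) / M, mul_pos hw0 hE0, by positivity, ?_⟩
  intro H hH
  have hH0 : 0 < H := by linarith
  have hHw : 0 < H ^ (-w) := by positivity
  have e1 : c₁ * H ^ (-w) ≤ C₀ * H ^ (-κ₀) := by
    have h1 : c₁ ≤ C₀ := by rw [hc₁]; exact min_le_left _ _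
    have h2 : H ^ (-w) ≤ H ^ (-κ₀) := Real.rpow_le_rpow_of_exponent_le hH (by
      have := le_max_left κ₀ κ₁
      linarith)
    gcongr
  rcases hcore (t : ℂ) le_rfl H hH (c₁ * H ^ (-w)) (by positivity) e1 with h | h
  · exfalso
    obtain ⟨q, hq, hqd, hqc, hqs⟩ := h
    have h1 := hmeas q hq hqd (KF E * H) (by nlinarith) hqc
    have h2 : (KF E * H) ^ κ₁ * (c₁ * H ^ (-w)) ≤ c₂ := by
      have h3 : c₁ ≤ c₂ * (KF E) ^ (-κ₁) := by rw [hc₁]; exact min_le_right _ _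
      have h4 : H ^ (-w) ≤ H ^ (-κ₁) := Real.rpow_le_rpow_of_exponent_le hH (by
        have := le_max_right κ₀ κ₁
        linarith)
      have h5 : H ^ κ₁ * H ^ (-κ₁) = 1 := by rw [← Real.rpow_add hH0]; simp
      have h6 : (KF E) ^ κ₁ * (KF E) ^ (-κ₁) = 1 := by rw [← Real.rpow_add hK0]; simp
      calc (KF E * H) ^ κ₁ * (c₁ * H ^ (-w))
          ≤ (KF E * H) ^ κ₁ * (c₂ * (KF E) ^ (-κ₁) * H ^ (-κ₁)) := by gcongr
        _ = c₂ * ((KF E) ^ κ₁ * (KF E) ^ (-κ₁)) * (H ^ κ₁ * H ^ (-κ₁)) := by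
            rw [Real.mul_rpow hK0.le hH0.le]
            ring
        _ = c₂ := by rw [h5, h6]; ring
    have h3 : (KF E * H) ^ κ₁ * ‖aeval (t : ℂ) q‖ < (KF E * H) ^ κ₁ * (c₁ * H ^ (-w)) := by
      have : 0 < (KF E * H) ^ κ₁ := by positivity
      gcongr
    linarith
  · obtain ⟨h, hh, hr⟩ := h
    have hQq : (0 : ℚ) < Q := by exact_mod_cast hQ
    have hQq' : (0 : ℚ) < Q' := by exact_mod_cast hQ'
    refine ⟨h * Q / Q', div_pos (mul_pos hh hQq) hQq', fun p hp hnear => ?_⟩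
    obtain ⟨m, hm, hmN, hrm, hgr⟩ := hden p.1 (Finset.mem_image_of_mem _ hp)
    obtain ⟨n, hn, hnN, hrn, hfr⟩ := hden' p.2 (Finset.mem_image_of_mem _ hp)
    rw [← hy] at hgr
    rw [← ht] at hfr
    have hgr' : ((g ^ (p.1 : ℝ) : ℝ) : ℂ) = (y : ℂ) ^ m ∨ ((g ^ (p.1 : ℝ) : ℝ) : ℂ) = ((y : ℂ) ^ m)⁻¹ := by
      rcases hgr with h1 | h1
      · left; rw [h1]; push_cast; rfl
      · right; rw [h1]; push_cast; rfl
    have hfr' : ((f ^ (p.2 : ℝ) : ℝ) : ℂ) = (t : ℂ) ^ n ∨ ((f ^ (p.2 : ℝ) : ℝ) : ℂ) = ((t : ℂ) ^ n)⁻¹ := by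
      rcases hfr with h1 | h1
      · left; rw [h1]; push_cast; rfl
      · right; rw [h1]; push_cast; rfl
    have h1 := near_pow_x htc hnN (by positivity) hfr' (near_pow_z hyc hmN (by positivity) hgr' hnear)
    rw [mul_assoc, ← hM] at h1
    have h2 : c₁ ^ (2 * E) / M * H ^ (-(w * (2 * E : ℕ))) * M ≤ (c₁ * H ^ (-w)) ^ (2 * E) := by
      have h3 : H ^ (-(w * (2 * E : ℕ))) = (H ^ (-w)) ^ (2 * E) := by
        rw [← Real.rpow_natCast (H ^ (-w)), ← Real.rpow_mul hH0.le]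
        congr 1
        ring
      rw [h3, mul_pow]
      have hM0' : M ≠ 0 := hM0.ne'
      apply le_of_eq
      field_simp
    obtain ⟨a, b, ha, haD, hb, hbd, hab⟩ := hr m n hm hmN hn hnN (h1.mono h2)
    refine ⟨a, b, ha, haD, hb, hbd, ?_⟩
    rw [← hab, hrm, hrn]
    have h5 : (Q : ℚ) ≠ 0 := by exact_mod_cast hQ.ne'
    have h6 : (Q' : ℚ) ≠ 0 := by exact_mod_cast hQ'.ne'
    have h7 : (n : ℚ) ≠ 0 := by exact_mod_cast hn.ne'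
    push_cast
    field_simp

end Pool.Agent.D0H21.PE
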