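import Mathlib

/-!
# Degrees of relations between powers of two numbers
-/

set_option autoImplicit false

namespace Pool.Agent.D0H21.PE

open IntermediateField Polynomial Finset

variable {K E : Type*} [Field K] [Field E] [Algebra K E]

/-- `x` and `z` satisfy a nontrivial relation over `K` of degree at most `D` in `x` and at most `d` in `z` -/
def Rel (K : Type*) {E : Type*} [Field K] [Field E] [Algebra K E] (x z : E) (D d : ℕ) : Prop :=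
  ∃ c : ℕ → ℕ → K, (∃ i ≤ D, ∃ j ≤ d, c i j ≠ 0) ∧
    ∑ i ∈ range (D + 1), ∑ j ∈ range (d + 1), algebraMap K E (c i j) * x ^ i * z ^ j = 0

lemma Rel.symm {x z : E} {D d : ℕ} (h : Rel K x z D d) : Rel K z x d D := by
  obtain ⟨c, ⟨i, hi, j, hj, hc⟩, h0⟩ := h
  refine ⟨fun j i => c i j, ⟨j, hj, i, hi, hc⟩, ?_⟩
  rw [← h0, Finset.sum_comm]
  refine Finset.sum_congr rfl fun i _ => Finset.sum_congr rfl fun j _ => ?_
  ring

/-- the polynomial of a relation -/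
lemma exists_poly_of_rel {x z : E} (hz : Transcendental K z) {D d : ℕ} (h : Rel K x z D d) :
    ∃ p : K⟮z⟯[X], p ≠ 0 ∧ aeval x p = 0 ∧ p.natDegree ≤ D := by
  obtain ⟨c, ⟨i₀, hi₀, j₀, hj₀, hc⟩, h0⟩ := h
  obtain ⟨g, hg⟩ : ∃ g : K⟮z⟯, (g : E) = z := ⟨AdjoinSimple.gen K z, AdjoinSimple.coe_gen K z⟩
  obtain ⟨p, hp⟩ : ∃ p : K⟮z⟯[X], p = ∑ i ∈ range (D + 1),
      C (∑ j ∈ range (d + 1), algebraMap K K⟮z⟯ (c i j) * g ^ j) * X ^ i := ⟨_, rfl⟩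
  have hcoef : p.coeff i₀ = ∑ j ∈ range (d + 1), algebraMap K K⟮z⟯ (c i₀ j) * g ^ j := by
    rw [hp, finsetSum_coeff]
    simp only [coeff_C_mul_X_pow]
    rw [Finset.sum_ite_eq (range (D + 1)) i₀]
    rw [if_pos (Finset.mem_range.2 (by omega))]
  refine ⟨p, ?_, ?_, ?_⟩
  · intro hp1
    rw [hp1, coeff_zero] at hcoef
    apply hz
    refine ⟨∑ j ∈ range (d + 1), C (c i₀ j) * X ^ j, ?_, ?_⟩
    · intro h1
      apply hc
      have h2 := congrArg (fun q => coeff q j₀) h1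
      simp only [finsetSum_coeff, coeff_C_mul_X_pow, coeff_zero] at h2
      rwa [Finset.sum_ite_eq (range (d + 1)) j₀, if_pos (Finset.mem_range.2 (by omega))] at h2
    · have h2 := congrArg (fun w : K⟮z⟯ => (w : E)) hcoef
      simp only [ZeroMemClass.coe_zero, AddSubmonoidClass.coe_finsetSum, MulMemClass.coe_mul,
        SubmonoidClass.coe_pow, hg] at h2
      rw [map_sum]
      simp only [map_mul, aeval_C, map_pow, aeval_X]
      exact h2.symm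
  · rw [hp, map_sum, ← h0]
    refine Finset.sum_congr rfl fun i _ => ?_
    rw [map_mul, aeval_C, map_pow, aeval_X, map_sum, Finset.sum_mul]
    refine Finset.sum_congr rfl fun j _ => ?_
    rw [map_mul, map_pow]
    have h1 : algebraMap K⟮z⟯ E g = z := hg
    have h2 : algebraMap K⟮z⟯ E (algebraMap K K⟮z⟯ (c i j)) = algebraMap K E (c i j) := rfl
    rw [h1, h2]
    ring
  · rw [hp]
    refine natDegree_sum_le_of_forall_le _ _ fun i hi => ?_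
    rw [Finset.mem_range] at hi
    exact (natDegree_C_mul_X_pow_le _ _).trans (by omega)

lemma integral_of_rel {x z : E} (hz : Transcendental K z) {D d : ℕ} (h : Rel K x z D d) :
    IsIntegral K⟮z⟯ x := by
  obtain ⟨p, hp0, hpx, _⟩ := exists_poly_of_rel hz h
  exact (isAlgebraic_iff_isIntegral).1 ⟨p, hp0, hpx⟩

lemma relfinrank_adjoin (A : IntermediateField K E) (x : E) (hint : IsIntegral A x) :
    relfinrank A (A ⊔ K⟮x⟯) = (minpoly A x).natDegree := by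
  have hext : extendScalars (le_sup_left : A ≤ A ⊔ K⟮x⟯) = A⟮x⟯ := by
    apply restrictScalars_injective K
    rw [extendScalars_restrictScalars, restrictScalars_adjoin]
    rw [adjoin_union, adjoin_self]
  rw [relfinrank_eq_finrank_of_le le_sup_left, hext, adjoin.finrank hint]

/-- the degree of `x` over `K(z)` is positive and at most `D` -/
lemma relfinrank_le_of_rel {x z : E} (hz : Transcendental K z) {D d : ℕ} (h : Rel K x z D d) :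
    0 < relfinrank K⟮z⟯ (K⟮z⟯ ⊔ K⟮x⟯) ∧ relfinrank K⟮z⟯ (K⟮z⟯ ⊔ K⟮x⟯) ≤ D := by
  have hint := integral_of_rel hz h
  obtain ⟨p, hp0, hpx, hpD⟩ := exists_poly_of_rel hz h
  rw [relfinrank_adjoin _ _ hint]
  exact ⟨minpoly.natDegree_pos hint, (natDegree_le_of_dvd (minpoly.dvd _ _ hpx) hp0).trans hpD⟩

lemma pos_of_rel {x y : E} (hx : Transcendental K x) {m n : ℕ} (hm : 0 < m) (hn : 0 < n) {D d : ℕ}
    (h : Rel K (x ^ n) (y ^ m) D d) : 0 < relfinrank K⟮x⟯ (K⟮x⟯ ⊔ K⟮y⟯) := by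
  have h1 := integral_of_rel (hx.pow hn) h.symm
  have h2 : K⟮x ^ n⟯ ≤ K⟮x⟯ := by
    rw [adjoin_simple_le_iff]
    exact pow_mem (mem_adjoin_simple_self K x) n
  have h3 : IsIntegral K⟮x⟯ (y ^ m) := by
    obtain ⟨p, hp, hp0⟩ := h1
    refine ⟨p.map (inclusion h2).toRingHom, hp.map _, ?_⟩
    rw [eval₂_map]
    exact hp0
  have h4 : IsIntegral K⟮x⟯ y := h3.of_pow hm
  rw [relfinrank_adjoin _ _ h4]
  exact minpoly.natDegree_pos h4

/-- `[K(y) : K(y ^ m)] = m` -/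
lemma relfinrank_pow {y : E} (hy : Transcendental K y) (m : ℕ) (hm : 0 < m) :
    relfinrank K⟮y ^ m⟯ K⟮y⟯ = m := by
  obtain ⟨f, hf⟩ : ∃ f : RatFunc K →ₐ[K] E, f = (K⟮y⟯.val).comp
      ((RatFunc.algEquivOfTranscendental y hy : RatFunc K ≃ₐ[K] K⟮y⟯) : RatFunc K →ₐ[K] K⟮y⟯) :=
    ⟨_, rfl⟩
  have hfX : f RatFunc.X = y := by
    rw [hf]
    exact RatFunc.algEquivOfTranscendental_X y hy
  have h2 : IntermediateField.map f (adjoin K {(RatFunc.X : RatFunc K) ^ m}) = K⟮y ^ m⟯ := by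
    rw [adjoin_map, Set.image_singleton, map_pow, hfX]
  have h1 : IntermediateField.map f ⊤ = K⟮y⟯ := by
    rw [← AlgHom.fieldRange_eq_map]
    apply le_antisymm
    · rintro w ⟨u, rfl⟩
      rw [hf]
      exact (RatFunc.algEquivOfTranscendental y hy u).2
    · rw [adjoin_simple_le_iff]
      exact ⟨RatFunc.X, hfX⟩
  rw [← h1, ← h2, relfinrank_map_map, relfinrank_top_right, RatFunc.finrank_eq_max_natDegree]
  have h3 : (RatFunc.X : RatFunc K) ^ m = algebraMap K[X] (RatFunc K) (X ^ m) := by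
    rw [map_pow, RatFunc.algebraMap_X]
  rw [h3, RatFunc.num_algebraMap, RatFunc.denom_algebraMap]
  simp

/-- the degree of a relation between powers of `x` and `y`, divided by the ratio of the exponents,
is a constant -/
theorem ratio (x y : E) (hx : Transcendental K x) (hy : Transcendental K y) :
    ∃ h : ℚ, 0 < h ∧ ∀ m n : ℕ, 0 < m → 0 < n → ∀ D d : ℕ, Rel K (x ^ n) (y ^ m) D d →
      ∃ a b : ℕ, 1 ≤ a ∧ a ≤ D ∧ 1 ≤ b ∧ b ≤ d ∧ (m : ℚ) / n * h = a / b := by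
  obtain ⟨u, hu⟩ : ∃ u : ℕ, u = relfinrank K⟮x⟯ (K⟮x⟯ ⊔ K⟮y⟯) := ⟨_, rfl⟩
  obtain ⟨v, hv⟩ : ∃ v : ℕ, v = relfinrank K⟮y⟯ (K⟮x⟯ ⊔ K⟮y⟯) := ⟨_, rfl⟩
  have key : ∀ m n : ℕ, 0 < m → 0 < n → ∀ D d : ℕ, Rel K (x ^ n) (y ^ m) D d →
      0 < u ∧ 0 < v ∧ ∃ a b : ℕ, 1 ≤ a ∧ a ≤ D ∧ 1 ≤ b ∧ b ≤ d ∧ m * v * b = n * u * a := by
    intro m n hm hn D d h
    have hxn : Transcendental K (x ^ n) := hx.pow hn
    have hym : Transcendental K (y ^ m) := hy.pow hm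
    obtain ⟨ha, haD⟩ := relfinrank_le_of_rel hym h
    obtain ⟨hb, hbd⟩ := relfinrank_le_of_rel hxn h.symm
    rw [sup_comm] at ha haD
    have h1 : K⟮x ^ n⟯ ≤ K⟮x⟯ := by
      rw [adjoin_simple_le_iff]
      exact pow_mem (mem_adjoin_simple_self K x) n
    have h2 : K⟮y ^ m⟯ ≤ K⟮y⟯ := by
      rw [adjoin_simple_le_iff]
      exact pow_mem (mem_adjoin_simple_self K y) m
    have h3 : K⟮x ^ n⟯ ⊔ K⟮y ^ m⟯ ≤ K⟮x⟯ ⊔ K⟮y⟯ := sup_le_sup h1 h2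
    have e1 := relfinrank_mul_relfinrank (le_sup_left : K⟮x ^ n⟯ ≤ K⟮x ^ n⟯ ⊔ K⟮y ^ m⟯) h3
    have e2 := relfinrank_mul_relfinrank (le_sup_right : K⟮y ^ m⟯ ≤ K⟮x ^ n⟯ ⊔ K⟮y ^ m⟯) h3
    have e3 := relfinrank_mul_relfinrank h1 (le_sup_left : K⟮x⟯ ≤ K⟮x⟯ ⊔ K⟮y⟯)
    have e4 := relfinrank_mul_relfinrank h2 (le_sup_right : K⟮y⟯ ≤ K⟮x⟯ ⊔ K⟮y⟯)
    rw [relfinrank_pow hx n hn, ← hu] at e3
    rw [relfinrank_pow hy m hm, ← hv] at e4
    obtain ⟨a, ha'⟩ : ∃ a : ℕ, a = relfinrank K⟮y ^ m⟯ (K⟮x ^ n⟯ ⊔ K⟮y ^ m⟯) := ⟨_, rfl⟩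
    obtain ⟨b, hb'⟩ : ∃ b : ℕ, b = relfinrank K⟮x ^ n⟯ (K⟮x ^ n⟯ ⊔ K⟮y ^ m⟯) := ⟨_, rfl⟩
    obtain ⟨e, he'⟩ : ∃ e : ℕ, e = relfinrank (K⟮x ^ n⟯ ⊔ K⟮y ^ m⟯) (K⟮x⟯ ⊔ K⟮y⟯) := ⟨_, rfl⟩
    rw [← hb', ← he', ← e3] at e1
    rw [← ha', ← he', ← e4] at e2
    rw [← ha'] at ha haD
    rw [← hb'] at hb hbd
    have hu0 : 0 < u := by rw [hu]; exact pos_of_rel hx hm hn h
    have hv0 : 0 < v := by rw [hv, sup_comm]; exact pos_of_rel hy hn hm h.symm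
    have he0 : 0 < e := by
      rcases Nat.eq_zero_or_pos e with h5 | h5
      · rw [h5, mul_zero] at e1
        have := Nat.mul_pos hn hu0
        omega
      · exact h5
    refine ⟨hu0, hv0, a, b, ha, haD, hb, hbd, ?_⟩
    rw [← e2, ← e1]
    ring
  by_cases hex : ∃ m n : ℕ, 0 < m ∧ 0 < n ∧ ∃ D d : ℕ, Rel K (x ^ n) (y ^ m) D d
  · obtain ⟨m₀, n₀, hm₀, hn₀, D₀, d₀, h₀⟩ := hex
    obtain ⟨hu0, hv0, _⟩ := key m₀ n₀ hm₀ hn₀ D₀ d₀ h₀
    have hu1 : (0 : ℚ) < u := by exact_mod_cast hu0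
    have hv1 : (0 : ℚ) < v := by exact_mod_cast hv0
    refine ⟨(v : ℚ) / u, by positivity, fun m n hm hn D d h => ?_⟩
    obtain ⟨_, _, a, b, ha, haD, hb, hbd, hab⟩ := key m n hm hn D d h
    refine ⟨a, b, ha, haD, hb, hbd, ?_⟩
    have hn1 : (0 : ℚ) < n := by exact_mod_cast hn
    have hb1 : (0 : ℚ) < b := by exact_mod_cast hb
    have hab1 : (m : ℚ) * v * b = n * u * a := by exact_mod_cast hab
    rw [div_mul_div_comm, div_eq_div_iff (by positivity) (by positivity), hab1]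
    ring
  · refine ⟨1, one_pos, fun m n hm hn D d h => absurd ⟨m, n, hm, hn, D, d, h⟩ hex⟩

end Pool.Agent.D0H21.PE
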